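import Pool.Agent.X53.VDM

/-!
# MP_c0a4b6_co: principal minors of skew-Hermitian plus rank-one Hermitian matrices

The answer to Q1 is positive; in fact no assumption on the characteristic of the field or of the
residue field is needed.
-/

namespace Pool.Agent.Results.MP_c0a4b6_co.AllValuedFields

open Pool.Agent.X53.VDM Matrix

variable {K : Type*} [Field K] {n : ℕ}

/-- `M` is Hermitian with respect to the involution `σ`. -/
def IsHerm (σ : K →+* K) (M : Matrix (Fin n) (Fin n) K) : Prop := (M.map σ)ᵀ = M

/-- `M` is skew-Hermitian with respect to the involution `σ`. -/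
def IsSkewHerm (σ : K →+* K) (M : Matrix (Fin n) (Fin n) K) : Prop := (M.map σ)ᵀ = -M

/-- The principal minor on rows and columns `S`. -/
def minor (A : Matrix (Fin n) (Fin n) K) (S : Finset (Fin n)) : K :=
  (A.submatrix (fun i : S => (i : Fin n)) (fun i : S => (i : Fin n))).det

/-- **MP_c0a4b6_co, Q1 (affirmative), for every valued field with a valuation-preserving
involution.** -/
theorem result {K : Type*} [Field K] (ν : AddValuation K (WithTop ℝ)) (σ : K →+* K)
    (hσ : ∀ a, σ (σ a) = a) (hν : ∀ a, ν (σ a) = ν a) {n : ℕ}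
    (B C : Matrix (Fin n) (Fin n) K) (hB : IsSkewHerm σ B) (hC : IsHerm σ C) (hrk : C.rank ≤ 1) :
    IsValuatedDeltaMatroid (fun S : Finset (Fin n) => ν (minor (B + C) S)) := by
  refine main ν σ hσ hν (B + C) ?_
  have h : B + C + ct σ (B + C) = C * (Matrix.diagonal fun _ => (2 : K)) := by
    ext i j
    have h1 := congrFun (congrFun hB i) j
    have h2 := congrFun (congrFun hC i) j
    simp only [Matrix.transpose_apply, Matrix.map_apply, Matrix.neg_apply] at h1 h2
    rw [Matrix.mul_diagonal, Matrix.add_apply, ct_apply, Matrix.add_apply, Matrix.add_apply,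
      map_add, h1, h2]
    ring
  rw [h]
  exact (Matrix.rank_mul_le_left _ _).trans hrk

end Pool.Agent.Results.MP_c0a4b6_co.AllValuedFields
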